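import Pool.Agent.Helper94.GA.Goals

/-!
# Packet GRD5: lower bound for the determinant
-/

namespace Pool.Agent.Helper3.GA

open Finset Filter Topology
open scoped ComplexOrder
open Pool.Agent.Helper94.GA

/-- the matrix with columns `Λ^(m+i) v`. -/
private noncomputable def Wm {e : ℕ} {C : Type} (lam : Fin e → ℂ) (v : C → Fin e → ℂ) (c : C)
    (m : ℕ) : Matrix (Fin e) (Fin e) ℂ := Matrix.of fun j i => wv lam v c (m + (i : ℕ)) j

private lemma Wm_eq {e : ℕ} {C : Type} (lam : Fin e → ℂ) (v : C → Fin e → ℂ) (c : C) (m : ℕ) :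
    Wm lam v c m = Matrix.diagonal (fun j => lam j ^ m * v c j) * Matrix.vandermonde lam := by
  ext j i
  simp only [Wm, Matrix.of_apply, wv, Matrix.diagonal_mul, Matrix.vandermonde_apply, pow_add]
  ring

private lemma Wm_det {e : ℕ} {C : Type} (lam : Fin e → ℂ) (v : C → Fin e → ℂ) (c : C) (m : ℕ) :
    (Wm lam v c m).det = (∏ j, lam j) ^ m * ((∏ j, v c j) * (Matrix.vandermonde lam).det) := by
  rw [Wm_eq, Matrix.det_mul, Matrix.det_diagonal, Finset.prod_mul_distrib, Finset.prod_pow]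
  ring

private lemma Wm_mul {e : ℕ} {C : Type} (lam : Fin e → ℂ) (v : C → Fin e → ℂ) (c : C) (m : ℕ) :
    Wm lam v c m * (Wm lam v c m).conjTranspose =
      ∑ i ∈ range e, Matrix.vecMulVec (wv lam v c (m + i)) (star (wv lam v c (m + i))) := by
  ext a b
  rw [Matrix.sum_apply, Matrix.mul_apply, ← Fin.sum_univ_eq_sum_range
    (fun i => (Matrix.vecMulVec (wv lam v c (m + i)) (star (wv lam v c (m + i)))) a b)]
  refine Finset.sum_congr rfl fun i _ => ?_
  simp [Wm, Matrix.vecMulVec_apply]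

private lemma mono (hD : DET_stmt) {e : ℕ} (A P : Matrix (Fin e) (Fin e) ℂ) (hA : A.PosDef)
    (hP : P.PosSemidef) : A.det.re ≤ (A + P).det.re := by
  obtain ⟨h1, _, h3, h4⟩ := hD e A P hA hP
  nlinarith

private lemma psdR {e : ℕ} (p : ℝ) (hp : 0 ≤ p) (z : Fin e → ℂ) :
    ((p : ℂ) • Matrix.vecMulVec z (star z)).PosSemidef := by
  have h := Matrix.posSemidef_vecMulVec_self_star z
  exact h.smul (by exact_mod_cast hp)

theorem GRD5 (hD : DET_stmt) : GRD5_stmt := by
  intro e C _ _ lam v hinj hlam hv s hs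
  classical
  obtain ⟨c0⟩ := (inferInstance : Nonempty C)
  set p : ℝ := 1 / (Fintype.card C : ℝ) with hp
  have hcard : (0 : ℝ) < Fintype.card C := by exact_mod_cast Fintype.card_pos
  have hp0 : 0 < p := by rw [hp]; positivity
  set M : ℝ := ∏ j, ‖lam j‖ with hM
  have hM1 : 1 ≤ M := by
    rw [hM]
    calc (1 : ℝ) = ∏ j : Fin e, (1 : ℝ) := by simp
      _ ≤ ∏ j, ‖lam j‖ := Finset.prod_le_prod (fun _ _ => zero_le_one) fun j _ => (hlam j).le
  have hM0 : 0 < M := by linarith
  have hvd : (Matrix.vandermonde lam).det ≠ 0 := Matrix.det_vandermonde_ne_zero_iff.mpr hinj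
  set q : ℂ := (∏ j, v c0 j) * (Matrix.vandermonde lam).det with hq
  have hq0 : q ≠ 0 := mul_ne_zero (Finset.prod_ne_zero_iff.mpr fun j _ => hv c0 j) hvd
  have hs1 : (((s : ℂ) • (1 : Matrix (Fin e) (Fin e) ℂ))).PosDef :=
    Matrix.PosDef.one.smul (by exact_mod_cast hs)
  have hdet1 : ((s : ℂ) • (1 : Matrix (Fin e) (Fin e) ℂ)).det.re = s ^ e := by
    rw [Matrix.det_smul, Matrix.det_one, mul_one, Fintype.card_fin, ← Complex.ofReal_pow,
      Complex.ofReal_re]
  -- the sum of rank one matrices is positive semidefinite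
  have hpsd : ∀ (c : C) (S : Finset ℕ), (∑ l ∈ S, ((p : ℝ) : ℂ) •
      Matrix.vecMulVec (wv lam v c l) (star (wv lam v c l))).PosSemidef := fun c S =>
    Matrix.posSemidef_sum _ fun l _ => psdR p hp0.le _
  refine ⟨min (s ^ e / M ^ (2 * e)) (p ^ e * ‖q‖ ^ 2 / M ^ (2 * e)), ?_, ?_⟩
  · refine lt_min (by positivity) ?_
    have : 0 < ‖q‖ := norm_pos_iff.mpr hq0
    positivity
  intro k t ht
  by_cases hk : e ≤ k
  · -- large k
    set m := k - e with hm
    have hPD : (((p : ℝ) : ℂ) • (Wm lam v c0 m * (Wm lam v c0 m).conjTranspose)).PosDef := by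
      refine Matrix.PosDef.smul (Matrix.PosDef.mul_conjTranspose_self _ ?_)
        (by exact_mod_cast hp0)
      have hu : IsUnit (Wm lam v c0 m) := by
        rw [Matrix.isUnit_iff_isUnit_det, Wm_det, isUnit_iff_ne_zero]
        refine mul_ne_zero (pow_ne_zero _ (Finset.prod_ne_zero_iff.mpr fun j _ => ?_)) hq0
        intro h0
        have := hlam j
        rw [h0, norm_zero] at this
        linarith
      exact Matrix.vecMul_injective_of_isUnit hu
    have hsplit : Nm lam v s t =
        (((p : ℝ) : ℂ) • (Wm lam v c0 m * (Wm lam v c0 m).conjTranspose)) +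
        ((s : ℂ) • (1 : Matrix (Fin e) (Fin e) ℂ) +
          ((∑ c ∈ univ.erase c0, ∑ l ∈ range (t c), ((p : ℝ) : ℂ) •
            Matrix.vecMulVec (wv lam v c l) (star (wv lam v c l))) +
          (∑ l ∈ range (t c0) \ (range e).image (fun i => m + i), ((p : ℝ) : ℂ) •
            Matrix.vecMulVec (wv lam v c0 l) (star (wv lam v c0 l))))) := by
      have hsub : (range e).image (fun i => m + i) ⊆ range (t c0) := by
        intro x hx
        rw [Finset.mem_image] at hx
        obtain ⟨i, hi, rfl⟩ := hx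
        rw [Finset.mem_range] at hi ⊢
        have := ht c0
        omega
      have h1 : ∑ l ∈ (range e).image (fun i => m + i), ((p : ℝ) : ℂ) •
            Matrix.vecMulVec (wv lam v c0 l) (star (wv lam v c0 l)) =
          (((p : ℝ) : ℂ) • (Wm lam v c0 m * (Wm lam v c0 m).conjTranspose)) := by
        rw [Finset.sum_image (fun a _ b _ h => by simpa using h), Wm_mul, Finset.smul_sum]
      have h2 := Finset.sum_sdiff hsub (f := fun l => ((p : ℝ) : ℂ) •
            Matrix.vecMulVec (wv lam v c0 l) (star (wv lam v c0 l)))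
      have h3 := Finset.sum_erase_add univ (fun c => ∑ l ∈ range (t c), ((p : ℝ) : ℂ) •
            Matrix.vecMulVec (wv lam v c l) (star (wv lam v c l))) (Finset.mem_univ c0)
      unfold Nm
      rw [← hp, ← h3, ← h2, h1]
      abel
    have hmono := mono hD _ ((s : ℂ) • (1 : Matrix (Fin e) (Fin e) ℂ) +
          ((∑ c ∈ univ.erase c0, ∑ l ∈ range (t c), ((p : ℝ) : ℂ) •
            Matrix.vecMulVec (wv lam v c l) (star (wv lam v c l))) +
          (∑ l ∈ range (t c0) \ (range e).image (fun i => m + i), ((p : ℝ) : ℂ) •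
            Matrix.vecMulVec (wv lam v c0 l) (star (wv lam v c0 l))))) hPD
      (hs1.posSemidef.add ((Matrix.posSemidef_sum _ fun c _ => hpsd c _).add (hpsd c0 _)))
    rw [← hsplit] at hmono
    refine le_trans ?_ hmono
    have hdet : ((((p : ℝ) : ℂ) • (Wm lam v c0 m * (Wm lam v c0 m).conjTranspose)).det).re =
        p ^ e * (M ^ (2 * m) * ‖q‖ ^ 2) := by
      rw [Matrix.det_smul, Fintype.card_fin, Matrix.det_mul, Matrix.det_conjTranspose]
      have h5 : (Wm lam v c0 m).det * star (Wm lam v c0 m).det =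
          ((‖(Wm lam v c0 m).det‖ ^ 2 : ℝ) : ℂ) := by
        rw [Complex.star_def, Complex.mul_conj, Complex.normSq_eq_norm_sq]
      rw [h5, ← Complex.ofReal_pow, ← Complex.ofReal_mul, Complex.ofReal_re, Wm_det, ← hq,
        norm_mul, norm_pow, norm_prod, ← hM]
      ring
    rw [hdet]
    have hMk : M ^ (2 * k) = M ^ (2 * m) * M ^ (2 * e) := by
      rw [← pow_add]; congr 1; omega
    calc min (s ^ e / M ^ (2 * e)) (p ^ e * ‖q‖ ^ 2 / M ^ (2 * e)) * M ^ (2 * k)
        ≤ (p ^ e * ‖q‖ ^ 2 / M ^ (2 * e)) * M ^ (2 * k) :=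
          mul_le_mul_of_nonneg_right (min_le_right _ _) (by positivity)
      _ = p ^ e * (M ^ (2 * m) * ‖q‖ ^ 2) := by
          rw [hMk]; field_simp
  · -- small k
    have hmono := mono hD _ (∑ c, ∑ l ∈ range (t c), ((p : ℝ) : ℂ) •
            Matrix.vecMulVec (wv lam v c l) (star (wv lam v c l))) hs1
      (Matrix.posSemidef_sum _ fun c _ => hpsd c _)
    rw [hdet1] at hmono
    have hN : Nm lam v s t = (s : ℂ) • (1 : Matrix (Fin e) (Fin e) ℂ) +
        ∑ c, ∑ l ∈ range (t c), ((p : ℝ) : ℂ) •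
            Matrix.vecMulVec (wv lam v c l) (star (wv lam v c l)) := by
      unfold Nm
      rw [← hp]
    rw [← hN] at hmono
    refine le_trans ?_ hmono
    calc min (s ^ e / M ^ (2 * e)) (p ^ e * ‖q‖ ^ 2 / M ^ (2 * e)) * M ^ (2 * k)
        ≤ (s ^ e / M ^ (2 * e)) * M ^ (2 * k) :=
          mul_le_mul_of_nonneg_right (min_le_left _ _) (by positivity)
      _ ≤ (s ^ e / M ^ (2 * e)) * M ^ (2 * e) :=
          mul_le_mul_of_nonneg_left (pow_le_pow_right₀ hM1 (by omega)) (by positivity)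
      _ = s ^ e := by field_simp

end Pool.Agent.Helper3.GA
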